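import Pool.Agent.Results.MP_7a056a_gt.SquareSkeletal

/-!
Sanity checks for the definitions of `MP_7a056a_gt.SquareSkeletal`: the identity functor is normal
and finitely square-skeletal.
-/

set_option autoImplicit false

universe u

open CategoryTheory CategoryTheory.Limits TopologicalSpace Set Function Topology

namespace Pool.Agent.Helper28

open Pool.Agent.Results.MP_7a056a_gt.SquareSkeletal

theorem imageSub_id (X : CompHaus.{u}) (A : Closeds X) :
    imageSub (𝟭 CompHaus.{u}) X A = (A : Set X) := by
  ext x
  constructor
  · rintro ⟨y, rfl⟩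
    exact y.2
  · intro hx
    exact ⟨⟨x, hx⟩, rfl⟩

theorem normal_id : Normal (𝟭 CompHaus.{u}) where
  mono := fun _ _ _ h => h
  epi := fun _ _ _ h => h
  continuous := fun _ _ _ _ => inferInstance
  inter := by
    intro X ι A
    rw [imageSub_id]
    simp only [imageSub_id]
    ext x
    simp
  empty := fun _ h => h
  point := fun _ h => h
  weight_le := fun _ _ => le_rfl
  preimage := fun _ h _ _ => h

theorem finitelySquareSkeletal_id : FinitelySquareSkeletal (𝟭 CompHaus.{u}) :=
  fun _ _ _ _ _ _ _ _ _ h => h

end Pool.Agent.Helper28
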